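import Mathlib
import Pool.Agent.H819.BC.Br

/-!
# Symplectic forms and branched coverings

`X` and `Y` are closed manifolds of dimension `d` with almost complex structures `J_X` and `J_Y`,
and `f : X → Y` is a pseudoholomorphic branched covering with `m` sheets: `f` is smooth and
pseudoholomorphic, its fibres are finite, its derivative is bijective almost everywhere, and almost
every fibre has `m` points.  Examples are the cyclic coverings branched along closed
pseudoholomorphic submanifolds of codimension two; the branch locus of the coverings considered
here may have arbitrary singularities.

The theorem says that a class `a ∈ H²(Y; ℝ)`, represented by a smooth closed two-form `σ₀`, contains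
a symplectic form taming `J_Y` if and only if its pull-back `f^* a ∈ H²(X; ℝ)` contains a symplectic
form taming `J_X`.

If `a` contains such a form `ω`, then `f^* ω` degenerates at the critical points of `f`, and it can
be corrected since the fibres of `f` have dimension zero.  The converse is the main point.  The sum
`θ` over the sheets of `f` of a symplectic form on `X` has integrable coefficients (area formula),
is closed in the sense of distributions across the branch locus (Piola identity), and strongly
tames `J_Y`, but it is unbounded near the branch locus, and in general it is not continuous or even
in the critical Lebesgue space.  A Caccioppoli type inequality and an iteration on the scales show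
that its density `ρ^(2 - d) ∫_{B(z, ρ)} |θ|` tends to zero uniformly: near the fibre over `z` the
form is `dλ` for a primitive `λ` which vanishes on the fibre, and the density on a ball is estimated
by the supremum of `|λ|` on the preimage of a larger ball.  Finally `θ` is replaced by a symplectic
form by the criterion for forms with integrable coefficients and vanishing density.
-/

set_option autoImplicit false

open Set Filter Topology MeasureTheory Metric
open scoped Manifold ContDiff ENNReal NNReal

noncomputable section

namespace Pool.Agent.Results.MP_bf98aa_gt.BranchedCovers

open Pool.Agent.Y501.SYP Pool.Agent.H819.LGP Pool.Agent.H819.BCP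
open Pool.Agent

/-- **Symplectic forms and branched coverings.**  Let `X` and `Y` be closed manifolds of dimension
`d` with almost complex structures `J_X` and `J_Y` (the latter locally Lipschitz), and let
`f : X → Y` be a pseudoholomorphic branched covering with `m` sheets.  For each smooth closed
two-form `σ₀` on `Y`, the class of `σ₀` contains a symplectic form taming `J_Y` if and only if the
class of `f^* σ₀` contains a symplectic form taming `J_X`. -/
theorem result (d m : ℕ) (hm : 0 < m)
    (X Y : Type) [TopologicalSpace X] [ChartedSpace (ES d) X] [IsManifold 𝓘(ℝ, ES d) ∞ X]
    [CompactSpace X] [T2Space X] [TopologicalSpace Y] [ChartedSpace (ES d) Y]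
    [IsManifold 𝓘(ℝ, ES d) ∞ Y] [CompactSpace Y] [T2Space Y]
    (JX : End (ES d) X) (JY : End (ES d) Y) (hX : IsAlmostComplex JX) (hY : IsAlmostComplex JY)
    (hL : LocHolder JY 1) (f : X → Y) (hf : IsBranchedCover (leb d) f JX JY m)
    (σ₀ : Form (ES d) Y 2) (h1 : IsSmooth σ₀) (h2 : IsClosedForm σ₀) :
    TamedIn σ₀ JY ↔ TamedIn (pull f σ₀) JX :=
  ⟨asc hX hf, desc hX hY hL hm hf h1 h2⟩

end Pool.Agent.Results.MP_bf98aa_gt.BranchedCovers
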