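import Mathlib
import Pool.Agent.H819.MD.Fin

/-!
# Symplectic forms and pseudoholomorphic modifications

Question Q1 asks which classes in `H²(X; ℝ)` and which homotopy classes of almost complex structures
contain symplectic forms.  A symplectic form which tames an almost complex structure `J` lies in the
homotopy class given by `J`.  The theorem compares the classes of the symplectic forms taming almost
complex structures `J` and `I` on two closed manifolds `X` and `Z` of the same dimension `d ≥ 4` which
are related by a *pseudoholomorphic modification with centre `S ⊆ X`*: a smooth map `f : Z → X` with
`df ∘ I = J ∘ df` such that each point `x` outside `S` has exactly one preimage, and `df` is bijective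
there.  There is no condition on the fibres over `S`, which may be singular, reducible, and of any
dimension.  Examples are compositions of blow-downs.

* **From `X` to `Z`.**  Let `σ` be a symplectic form taming `J`, let `I` be locally Lipschitz.  Then `Z`
  has a symplectic form taming `I` if and only if there is a closed form `ζ` on `Z` with respect to
  which the fibres over the points of `S` are numerically good, and in this case the classes
  `f^*[σ] + t [ζ]` contain symplectic forms taming `I` for all small `t > 0`.  If `I` is smooth and the
  fibres over `S` are pseudoholomorphic curves, possibly singular and reducible, then the condition is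
  that there is a class in `H²(Z; ℝ)` which is positive on the closed pseudoholomorphic curves in the
  fibres.
* **From `Z` to `X`.**  Let `τ` be a symplectic form taming `I`, let `J` be locally Lipschitz and let `S`
  be closed with zero `(d - 3)`-dimensional Hausdorff measure, for example a union of finitely many
  submanifolds of codimension at least four.  Then the push-forward `f_* τ`, which is a smooth form
  outside `S` and unbounded near `S`, has locally integrable coefficients, it is closed in the sense of
  distributions, and it represents a class `f_*[τ] = [σ₀]` in `H²(X; ℝ)`.  This class contains a
  symplectic form taming `J`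
  - if the two-dimensional Hausdorff measure of `S` is zero,
  - if `S` is totally disconnected, for example countable, and `J` is of class `C^1` at its points,
  - if `S` is covered, up to a set which is totally disconnected and a set of zero two-dimensional
    Hausdorff measure, by a chain of `J`-holomorphic strata on which the class `[σ₀]` is positive, where
    closed curves have to be of positive degree only.

  If `J` is smooth and `S` is a closed `J`-holomorphic curve up to a set of zero two-dimensional
  Hausdorff measure, then `f_*[τ]` contains a symplectic form taming `J` if and only if it is positive on
  the closed `J`-holomorphic curves in `S`.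

For complex manifolds and Kähler forms, and for `S` a point, the descent is a theorem of Miyaoka.  For
threefolds and a curve `S` the last statement is an analogue of the criteria for Moishezon manifolds
(a Moishezon threefold as the one of Hironaka may be dominated by a projective manifold without being
Kähler, and then the push-forward classes are not positive on the centre).

Steps of the proof.  The coefficients of `det(df) · (df⁻¹)^* τ` are the minors of order `d - 2` of `df`,
so they are bounded, and the change of variables formula for the injective map `f` outside `f⁻¹(S)`
shows that `f_* τ` is locally integrable.  It is closed across `S` since `H^(d - 3)(S) = 0`, and a de Rham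
theorem for integrable forms gives its class.  It satisfies `f_* τ (v, J v) ≥ c |v|²` because `df` is
bounded.  Then the numerical criterion of the hand-in `MP_9986fc_gt.LelongNumbers` applies, since `f_* τ`
is smooth outside `S`.  The first part uses the relative criterion of the hand-in
`MP_9986fc_gt.RelativeNumerical` for the form `f^* σ`.
-/

set_option autoImplicit false

open Set Filter Topology MeasureTheory Metric
open scoped Manifold ContDiff ENNReal NNReal

noncomputable section

namespace Pool.Agent.Results.MP_bf98aa_gt.Modifications

open Pool.Agent.Y501.SYP Pool.Agent.H819.LGP Pool.Agent.H819.LNP Pool.Agent.H819.HNP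
open Pool.Agent.H819.BCP Pool.Agent.H819.RNP Pool.Agent.H819.MDP
open Pool.Agent.H819.NCP (NumericalChain)
open Pool.Agent

/-- **Symplectic forms and modifications.**  Let `f : (Z, I) → (X, J)` be a pseudoholomorphic
modification of closed manifolds of dimension `d ≥ 4` with centre `S`.

* Let `I` be locally Lipschitz and let `σ` be a symplectic form taming `J`.  Then `Z` has a symplectic
  form taming `I` if and only if the fibres over the points of `S` are numerically good with respect to a
  closed form `ζ`, and then the classes of `f^* σ + t ζ` contain such forms for all small `t > 0`.  If
  `I` is smooth and the fibres over the points of `S` are curves, this is the case if and only if there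
  is a class which is positive on the closed curves in the fibres.
* Let `J` be locally Lipschitz, let `S` be closed with zero `(d - 3)`-dimensional Hausdorff measure and
  let `τ` be a symplectic form taming `I`.  Then the push-forward of `τ` represents a class.  This class
  contains a symplectic form taming `J` if `S` is small.  If `S` is covered by a chain of `J`-holomorphic
  strata, it contains one if and only if it is positive along the chain.  If `J` is smooth and `S` is a
  curve, it contains one if and only if it is positive on the closed curves in `S`. -/
theorem result (d : ℕ) (hd : 4 ≤ d) (X Z : Type) [TopologicalSpace X] [ChartedSpace (ES d) X]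
    [IsManifold 𝓘(ℝ, ES d) ∞ X] [CompactSpace X] [T2Space X] [TopologicalSpace Z]
    [ChartedSpace (ES d) Z] [IsManifold 𝓘(ℝ, ES d) ∞ Z] [CompactSpace Z] [T2Space Z]
    (J : End (ES d) X) (I : End (ES d) Z) (hJ : IsAlmostComplex J) (hI : IsAlmostComplex I)
    (S : Set X) (f : Z → X) (hf : IsModification f S I J) :
    (LocHolder I 1 → ∀ σ, IsTamingSymplectic σ J →
      (∀ ζ, GoodOver f S σ I ζ → TamedNear (pull f σ) ζ I) ∧
      ((∃ τ, IsTamingSymplectic τ I) ↔ ∃ ζ, GoodOver f S σ I ζ) ∧
      (SmoothEnd I → (∀ s ∈ S, IsCurve I (f ⁻¹' {s})) →
        ((∃ τ, IsTamingSymplectic τ I) ↔
          ∃ ζ : Form (ES d) Z 2, IsSmooth ζ ∧ IsClosedForm ζ ∧ PositiveOnFibres f ζ I))) ∧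
    (LocHolder J 1 → IsClosed S → HausdorffNull (V := ES d) ((d : ℝ) - 3) S →
      ∀ τ, IsTamingSymplectic τ I →
        (∃ σ₀, PushClass (leb d) f S τ σ₀) ∧
        ∀ σ₀, PushClass (leb d) f S τ σ₀ →
          (Small S J → TamedIn σ₀ J) ∧
          (∀ (n : ℕ) (C : ℕ → Set X), CoveredBy S J n C →
            (TamedIn σ₀ J ↔ NumericalChain σ₀ J n C)) ∧
          (SmoothEnd J → IsCurve J S → (TamedIn σ₀ J ↔ PositiveOnCurves S σ₀ J))) :=
  ⟨fun hI1 _ hσ => lift_all hI hI1 hf hσ,
    fun hJL hS hS0 _ hτ => push_all hd hJ hJL hI hS hS0 hf hτ⟩

end Pool.Agent.Results.MP_bf98aa_gt.Modifications
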