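import Mathlib
import Pool.Agent.H819.PU.Br

/-!
# Symplectic forms on closed manifolds and on their punctured manifolds

Let `X` be a closed manifold of dimension `d ≥ 4`, let `τ` be a nondegenerate two-form on `X` and
let `a ∈ H²(X; ℝ)` be a class, represented by a smooth closed two-form `σ₀`.  Question Q1 asks for a
symplectic form in the class `a` which is homotopic to `τ` through nondegenerate forms.  On the
complement of a point `p` (or of finitely many points, one in each component) such a form always
exists, by Gromov's theorem for open manifolds.  The theorem says that the only obstruction to
passing from `X ∖ {p}` to `X` is the extension of a compatible almost complex structure over the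
point `p`, with one continuous derivative:

* the class `a` contains a symplectic form homotopic to `τ` if and only if there are an almost
  complex structure `J` of class `C^1` on `X`, in the homotopy class of `τ`, and a symplectic form
  `w` on `X ∖ {p}` in the restriction of the class `a` which is compatible with `J` on `X ∖ {p}`.

There is no condition on the behaviour of `w` near `p`: it may be unbounded, it may have infinite
volume, it may degenerate, and it need not be integrable a priori.  Instead of compatible forms we
may take forms which tame `J` with bounded distortion, `w(u, v)² ≤ C w(u, J u) w(v, J v)`.

The statement is also true for a given almost complex structure `J` of class `C^1`: the class `a`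
contains a symplectic form taming `J` if and only if its restriction to `X ∖ {p}` contains a
symplectic form taming `J` with bounded distortion, and the same without prescribing the class.

The point can be replaced by each closed countable subset `S` of `X`, and more generally by each
closed totally disconnected subset `S` with vanishing `(d - 3)`-dimensional Hausdorff measure,
provided that `w` is integrable near all but countably many points of `S`.  The dimension `d - 3` is
that of Shiffman's theorem on the extension of closed positive currents of type `(1, 1)`.

Steps of the proof.  A closed form which tames `J` with bounded distortion on a punctured ball is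
integrable (a monotonicity argument with a radial vector field, where the inner boundary has the
good sign); with the Baire category theorem one gets integrability near countable closed sets.
Adding a small exact form which tames `J` near `S` we get a strongly taming form.  The forms are
closed in the sense of distributions across `S`, and their class is the given one.  A de Rham
theorem for closed forms with integrable coefficients gives the class when it is not prescribed.
Finally the singularities are removed by the theorem of the hand-in `LelongNumbers` on forms whose
Lelong numbers vanish outside a totally disconnected set.
-/

set_option autoImplicit false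

open Set Filter Topology MeasureTheory Metric
open scoped Manifold ContDiff ENNReal NNReal

noncomputable section

namespace Pool.Agent.Results.MP_bf98aa_gt.PuncturedManifolds

open Pool.Agent.Y501.SYP Pool.Agent.H819.LGP Pool.Agent.H819.LNP Pool.Agent.H819.PUP
open Pool.Agent

/-- **Symplectic forms and thin sets.**  Let `X` be a closed manifold of dimension `d ≥ 4`.  Closed
countable subsets of `X` are thin.  Let `S` be a thin subset of `X`.

* Let `J` be an almost complex structure of class `C^1` on `X`.  Then there is a symplectic form
  taming `J` if and only if there is a smooth closed two-form on `X ∖ S` which tames `J` with bounded
  distortion and is integrable near all but countably many points of `S`.  The same holds for the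
  forms in a given class in `H²(X; ℝ)`, and those in its restriction to `X ∖ S`.
* Let `τ` be a nondegenerate two-form on `X` and let `σ₀` be a smooth closed two-form.  Then there is
  a symplectic form in the class of `σ₀` which is homotopic to `τ` through nondegenerate forms if and
  only if there is an almost complex structure `J` of class `C^1` on `X` in the homotopy class of `τ`,
  and a two-form `w` on `X ∖ S` in the class of `σ₀` which is compatible with `J` (or tames `J` with
  bounded distortion) and is integrable near all but countably many points of `S`. -/
theorem result (d : ℕ) (hd : 4 ≤ d) (X : Type) [TopologicalSpace X] [ChartedSpace (ES d) X]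
    [IsManifold 𝓘(ℝ, ES d) ∞ X] [CompactSpace X] [T2Space X] :
    (∀ S : Set X, IsClosed S → S.Countable →
      Thin (V := ES d) d S ∧ ∀ w : Form (ES d) X 2, AlmostInt (leb d) S w) ∧
    ∀ S : Set X, Thin (V := ES d) d S →
      (∀ J : End (ES d) X, IsAlmostComplex J → C1End J →
        ((∃ σ, IsTamingSymplectic σ J) ↔
          ∃ w, ClosedOff S w ∧ TamesOff S w J ∧ AlmostInt (leb d) S w) ∧
        ∀ σ₀ : Form (ES d) X 2, IsSmooth σ₀ → IsClosedForm σ₀ →
          (TamedIn σ₀ J ↔ ∃ w, InClassOff S σ₀ w ∧ TamesOff S w J ∧ AlmostInt (leb d) S w)) ∧
      ∀ σ₀ τ : Form (ES d) X 2, IsSmooth σ₀ → IsClosedForm σ₀ →
        List.TFAE [
          ∃ σ, SymplecticIn σ₀ σ ∧ Homotopic τ σ,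
          OffData (leb d) S σ₀ τ (CompatOff S),
          OffData (leb d) S σ₀ τ (TamesOff S)] :=
  ⟨fun _ hS hc => thin_of_countable hd hS hc, fun _ hS =>
    ⟨fun _ hJ hJ1 => ⟨(result_class hd hS hJ hJ1).2, (result_class hd hS hJ hJ1).1⟩,
      fun _ τ h1 h2 => result_homotopy hd hS h1 h2 τ⟩⟩

end Pool.Agent.Results.MP_bf98aa_gt.PuncturedManifolds
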